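import Pool.Agent.Q208.BD.SQ
import Pool.Agent.Q95.BKC.RAM
import Pool.Agent.Q95.BKC.RedA
import Pool.Agent.Q154.BKC.EMB

/-!
# BD-4 (EV): the Selmer group of a character unramified outside `2` for `q = 7`
-/

set_option autoImplicit false

namespace Pool.Agent.Q208.BD

open NumberField IsDedekindDomain
open Pool.Agent.Q274.BKC (GK OB Dec Ine val Fx AboveC IsSel TrivOn Emb)

theorem exists_t : ∃ t : ℚ_[2], t ^ 2 = -7 ∧ ‖t - 1‖ ≤ 1 / 4 := by
  obtain ⟨w, hw, hw1⟩ := exists_w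
  have hwQ : (w : ℚ_[2]) ^ 2 - w + 2 = 0 := by
    have := congrArg (fun v : ℤ_[2] => (v : ℚ_[2])) hw
    push_cast at this
    exact this
  refine ⟨2 * (w : ℚ_[2]) - 1, by linear_combination 4 * hwQ, ?_⟩
  have e1 : 2 * (w : ℚ_[2]) - 1 - 1 = 2 * ((w - 1 : ℤ_[2]) : ℚ_[2]) := by
    push_cast; ring
  rw [e1, norm_mul]
  have e2 : ‖(2 : ℚ_[2])‖ = 2⁻¹ := by
    have : ‖((2 : ℕ) : ℚ_[2])‖ = ((2 : ℕ) : ℝ)⁻¹ := Padic.norm_p
    simpa using this
  have e3 : ‖((w - 1 : ℤ_[2]) : ℚ_[2])‖ ≤ 1 / 2 := by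
    have h5 : ∃ c, w - 1 = 2 * c := by
      have := (PadicInt.norm_lt_one_iff_dvd (w - 1)).mp hw1
      simpa [dvd_def] using this
    obtain ⟨c, hc⟩ := h5
    rw [hc, PadicInt.coe_mul, norm_mul]
    have h6 : ‖(c : ℚ_[2])‖ ≤ 1 := c.2
    have h7 : ‖((2 : ℤ_[2]) : ℚ_[2])‖ = 2⁻¹ := by
      rw [← e2]; norm_cast
    rw [h7]
    linarith
  rw [e2]
  linarith

theorem t_unique {t u : ℚ_[2]} (ht : t ^ 2 = -7) (ht1 : ‖t - 1‖ ≤ 1 / 4) (hu : u ^ 2 = -7)
    (hu1 : ‖u - 1‖ ≤ 1 / 4) : u = t := by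
  have h1 : u ^ 2 = t ^ 2 := by rw [ht, hu]
  rcases sq_eq_sq_iff_eq_or_eq_neg.mp h1 with h | h
  · exact h
  · exfalso
    have e2 : ‖(2 : ℚ_[2])‖ = 2⁻¹ := by
      have : ‖((2 : ℕ) : ℚ_[2])‖ = ((2 : ℕ) : ℝ)⁻¹ := Padic.norm_p
      simpa using this
    have e3 : (2 : ℚ_[2]) = -((t - 1) + (u - 1)) := by rw [h]; ring
    have e4 : ‖(2 : ℚ_[2])‖ ≤ 1 / 4 := by
      rw [e3, norm_neg]
      exact (Padic.nonarchimedean _ _).trans (max_le ht1 hu1)
    rw [e2] at e4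
    norm_num at e4

theorem continuous_val {K : Type} [Field K] {χ : GK K →* ℤ_[2]ˣ} (h : Continuous χ) :
    Continuous (val χ) := by
  have h1 : Continuous fun σ : GK K => ((χ σ : ℤ_[2]ˣ) : ℤ_[2]) := Units.continuous_val.comp h
  exact continuous_subtype_val.comp h1

theorem t_EV : Pool.Agent.Q274.BD.S_EV := by
  intro hSQ K _ _ s χ hs hd hχ hunr c hSel
  have hs7 : s ^ 2 = -7 := by rw [hs]; norm_num
  have hval : ∀ σ, ‖val χ σ‖ = 1 := fun σ => by
    have h1 : IsUnit ((χ σ : ℤ_[2])) := (χ σ).isUnit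
    have h2 := PadicInt.isUnit_iff.mp h1
    exact h2
  have hmul : ∀ σ τ, val χ (σ * τ) = val χ σ * val χ τ := fun σ τ => by
    unfold Pool.Agent.Q274.BKC.val
    rw [map_mul, Units.val_mul, PadicInt.coe_mul]
  obtain ⟨t, ht, ht1⟩ := exists_t
  obtain ⟨Q, hE⟩ := (Pool.Agent.Q154.BKC.t_EMB K 7 s (by norm_num) (by norm_num) hs hd 2).1
    (algebraMap ℚ_[2] (PadicAlgCl 2) t) (by
      rw [← map_pow, ht, map_neg]
      congr 1)
  have hzi : IsIntegral ℤ (algebraMap K (AlgebraicClosure K)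
      (((1 / 2 : ℚ) : K) + ((-(1 / 2) : ℚ) : K) * s)) := by
    refine ⟨Polynomial.X ^ 2 - Polynomial.X + Polynomial.C 2, ?_, ?_⟩
    · monicity!
    · simp only [Polynomial.eval₂_add, Polynomial.eval₂_sub, Polynomial.eval₂_pow,
        Polynomial.eval₂_X, Polynomial.eval₂_C]
      simp only [eq_intCast, Int.cast_ofNat]
      rw [← map_pow, ← map_sub, ← map_ofNat (algebraMap K (AlgebraicClosure K)) 2, ← map_add]
      have e1 : (((1 / 2 : ℚ) : K) + ((-(1 / 2) : ℚ) : K) * s) ^ 2 -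
          (((1 / 2 : ℚ) : K) + ((-(1 / 2) : ℚ) : K) * s) + 2 = 0 := by
        push_cast
        linear_combination (1 / 4 : K) * hs7
      rw [e1, map_zero]
  let z : OB K := ⟨_, hzi⟩
  have hzv : (z : AlgebraicClosure K) = algebraMap K (AlgebraicClosure K)
      (((1 / 2 : ℚ) : K) + ((-(1 / 2) : ℚ) : K) * s) := rfl
  have hAb : AboveC s Q := by
    refine ⟨by simpa using hE.mem, z, (hE.iff _ _ z hzv).mpr ?_, ?_⟩
    · have e1 : (((1 / 2 : ℚ) : PadicAlgCl 2) + ((-(1 / 2) : ℚ) : PadicAlgCl 2) *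
          algebraMap ℚ_[2] (PadicAlgCl 2) t) =
          algebraMap ℚ_[2] (PadicAlgCl 2) (-((t - 1) / 2)) := by
        rw [map_neg, map_div₀, map_sub, map_one, map_ofNat]
        push_cast
        ring
      rw [e1]
      have e2 := PadicAlgCl.norm_extends 2 (-((t - 1) / 2))
      refine lt_of_eq_of_lt e2 ?_
      rw [norm_neg, norm_div, Pool.Agent.Q95.BKC.norm_two]
      rw [div_lt_iff₀ (by norm_num)]
      linarith
    · rw [hzv, map_add, map_mul, map_ratCast, map_ratCast]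
      push_cast
      ring
  obtain ⟨y0, hy0⟩ := hSel.dec Q hE.max hAb
  refine ⟨y0, ?_⟩
  set c' : GK K → ℚ_[2] := fun σ => c σ - (val χ σ - 1) * y0 with hc'
  suffices h : ∀ σ, c' σ = 0 from fun σ => sub_eq_zero.mp (h σ)
  have hcont : Continuous c' :=
    hSel.cont.sub (((continuous_val hχ).sub continuous_const).mul continuous_const)
  have hcoc : ∀ σ τ, c' (σ * τ) = c' σ + val χ σ * c' τ := fun σ τ => by
    simp only [hc', hSel.coc, hmul]; ring
  by_contra hne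
  push Not at hne
  obtain ⟨ρ, hρ⟩ := hne
  obtain ⟨τ, -, hτ⟩ := isCompact_univ.exists_isMaxOn (f := fun σ : GK K => ‖c' σ‖)
    ⟨ρ, Set.mem_univ ρ⟩ (continuous_norm.comp hcont).continuousOn
  have hτ' : ∀ σ, ‖c' σ‖ ≤ ‖c' τ‖ := fun σ => hτ (Set.mem_univ σ)
  have hτ0 : 0 < ‖c' τ‖ := lt_of_lt_of_le (norm_pos_iff.mpr hρ) (hτ' ρ)
  have hτ1 : c' τ ≠ 0 := norm_pos_iff.mp hτ0
  obtain ⟨x, hx0, hx⟩ := Pool.Agent.Q95.BKC.kummer (val χ) hval (fun σ => c' σ / c' τ)
    (hcont.div_const _) (fun σ υ => by simp only [hcoc]; ring) (fun σ => by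
      rw [norm_div, div_le_one hτ0]
      exact hτ' σ)
  have hzero : ∀ σ : GK K, c' σ = 0 → ∀ y : AlgebraicClosure K,
      y ^ 2 = algebraMap K (AlgebraicClosure K) x → σ y = y := fun σ hσ =>
    (hx σ).mp (by simp [hσ])
  have hsq : IsSquare x := by
    refine hSQ K s x hs7 hd hx0 ?_ ?_
    · intro v hv
      by_contra hcon
      have hcon' : ∀ a : K, a ≠ 0 → v.valuation K (x * a ^ 2) ≠ 1 :=
        fun a ha h => hcon ⟨a, ha, h⟩
      have hvm : v.asIdeal.IsMaximal := v.isMaximal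
      obtain ⟨P, hPm, hPv⟩ := Ideal.exists_ideal_over_maximal_of_isIntegral
        (S := (𝓞 (AlgebraicClosure K))) v.asIdeal (by
          rw [(RingHom.injective_iff_ker_eq_bot _).1
            (FaithfulSMul.algebraMap_injective (𝓞 K) (𝓞 (AlgebraicClosure K)))]
          exact bot_le)
      obtain ⟨σ, hσI, hσ⟩ := Pool.Agent.Q95.BKC.t_RAM K x v P hx0 hcon' hPm hPv
      have h2P : (2 : OB K) ∉ P := by
        intro h
        apply hv
        rw [← hPv, Ideal.mem_comap, map_ofNat]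
        exact h
      have h1 : χ σ = 1 := hunr P hPm h2P σ hσI
      obtain ⟨y₀, hy₀⟩ := hSel.ine P hPm h2P
      have hv1 : val χ σ = 1 := by
        unfold Pool.Agent.Q274.BKC.val
        rw [h1]
        simp
      have h3 : c' σ = 0 := by
        simp only [hc']
        rw [hy₀ σ hσI, hv1]
        ring
      have h4 := hzero σ h3
      obtain ⟨y, hy⟩ := IsAlgClosed.exists_pow_nat_eq (algebraMap K (AlgebraicClosure K) x) two_pos
      have h5 := h4 y hy
      rw [hσ y hy] at h5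
      have h6 : y = 0 := self_eq_neg.mp h5.symm
      rw [h6, zero_pow two_ne_zero, eq_comm, map_eq_zero] at hy
      exact hx0 hy
    · intro A B u hAB hu hu1
      rw [t_unique ht ht1 hu hu1]
      obtain ⟨a, b, hab⟩ := hE.sqr A B (by
        intro y hy σ hσ
        rw [← hAB] at hy
        refine hzero σ ?_ y hy
        simp only [hc']
        rw [hy0 σ hσ]
        ring)
      refine ⟨a + b * t, (algebraMap ℚ_[2] (PadicAlgCl 2)).injective ?_⟩
      rw [← sq, map_pow, map_add, map_mul, map_add, map_mul, map_ratCast, map_ratCast]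
      exact hab.symm
  obtain ⟨r, hr⟩ := hsq
  have h1 := (hx τ).mpr (fun y hy => by
    have h2 : y ^ 2 = (algebraMap K (AlgebraicClosure K) r) ^ 2 := by
      rw [hy, hr, map_mul, sq]
    rcases sq_eq_sq_iff_eq_or_eq_neg.mp h2 with h | h
    · rw [h, AlgEquiv.commutes]
    · rw [h, map_neg, AlgEquiv.commutes])
  rw [div_self hτ1, norm_one] at h1
  exact lt_irrefl _ h1

end Pool.Agent.Q208.BD
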