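import Pool.Agent.Q274.BD.Stm
import Pool.Agent.Q16.BKC.CLS

/-!
# BD-3 (SQ): an element of `ℚ(√-7)` with even valuations outside `2` which is a square at `v'` is a
square
-/

set_option autoImplicit false

namespace Pool.Agent.Q208.BD

open NumberField IsDedekindDomain Polynomial

/-! ### the 2-adic part -/

theorem exists_w : ∃ w : ℤ_[2], w ^ 2 - w + 2 = 0 ∧ ‖w - 1‖ < 1 := by
  have h1 : ‖(aeval (1 : ℤ_[2])) (X ^ 2 - X + 2 : ℤ_[2][X])‖ <
      ‖(aeval (1 : ℤ_[2])) (derivative (X ^ 2 - X + 2 : ℤ_[2][X]))‖ ^ 2 := by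
    have e1 : (aeval (1 : ℤ_[2])) (X ^ 2 - X + 2 : ℤ_[2][X]) = 2 := by
      simp
    have e2 : (aeval (1 : ℤ_[2])) (derivative (X ^ 2 - X + 2 : ℤ_[2][X])) = 1 := by
      simp
    rw [e1, e2]
    have : ‖((2 : ℕ) : ℤ_[2])‖ = 2⁻¹ := PadicInt.norm_p
    rw [Nat.cast_ofNat] at this
    rw [this]
    norm_num
  obtain ⟨z, hz, h2, -, -⟩ := hensels_lemma h1
  have e2 : (aeval (1 : ℤ_[2])) (derivative (X ^ 2 - X + 2 : ℤ_[2][X])) = 1 := by
    simp
  rw [e2, norm_one] at h2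
  refine ⟨z, ?_, h2⟩
  simpa using hz

theorem zmod_of_sq {v : ℤ_[2]} (h : IsSquare (v : ℚ_[2])) :
    ∃ z : ZMod (2 ^ 3), z * z = PadicInt.toZModPow 3 v := by
  obtain ⟨r, hr⟩ := h
  have h1 : ‖r‖ * ‖r‖ ≤ 1 := by
    rw [← norm_mul, ← hr]
    exact v.2
  have h2 : ‖r‖ ≤ 1 := by
    by_contra h3
    push Not at h3
    nlinarith [norm_nonneg r]
  let r' : ℤ_[2] := ⟨r, h2⟩
  have h3 : r' * r' = v := by
    apply Subtype.ext
    exact hr.symm
  exact ⟨PadicInt.toZModPow 3 r', by rw [← map_mul, h3]⟩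

theorem w_mod {w : ℤ_[2]} (h : w ^ 2 - w + 2 = 0) (h1 : ‖w - 1‖ < 1) :
    PadicInt.toZModPow 3 w = 3 := by
  have h2 : ∃ c, w - 1 = 2 * c := by
    have := (PadicInt.norm_lt_one_iff_dvd (w - 1)).mp h1
    simpa [dvd_def] using this
  obtain ⟨c, hc⟩ := h2
  have e1 : (PadicInt.toZModPow 3 w) ^ 2 - (PadicInt.toZModPow 3 w) + 2 = 0 := by
    have := congrArg (PadicInt.toZModPow 3) h
    rwa [map_add, map_sub, map_pow, map_ofNat, map_zero] at this
  have e2 : (PadicInt.toZModPow 3 w) - 1 = 2 * (PadicInt.toZModPow 3 c) := by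
    have := congrArg (PadicInt.toZModPow 3) hc
    rwa [map_sub, map_mul, map_ofNat, map_one] at this
  have key : ∀ z y : ZMod (2 ^ 3), z ^ 2 - z + 2 = 0 → z - 1 = 2 * y → z = 3 := by decide
  exact key _ _ e1 e2

theorem two_adic {w : ℤ_[2]} (h : w ^ 2 - w + 2 = 0) (h1 : ‖w - 1‖ < 1) {e : ℤ_[2]} {a b : ℕ}
    (he : e = 1 ∨ e = -1) (ha : a < 2) (hb : b < 2)
    (hsq : IsSquare ((e * w ^ a * (1 - w) ^ b : ℤ_[2]) : ℚ_[2])) : e = 1 ∧ a = 0 ∧ b = 0 := by
  obtain ⟨z, hz⟩ := zmod_of_sq hsq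
  have hw := w_mod h h1
  simp only [map_mul, map_pow, map_sub, map_one, hw] at hz
  have key : ∀ z : ZMod (2 ^ 3), z * z ≠ 7 ∧ z * z ≠ 3 ∧ z * z ≠ 5 ∧ z * z ≠ 6 ∧ z * z ≠ 2 := by
    decide
  obtain ⟨k1, k2, k3, k4, k5⟩ := key z
  have c1 : (-1 : ZMod (2 ^ 3)) = 7 := by decide
  have c2 : (1 * 3 ^ 1 * (1 - 3) ^ 1 : ZMod (2 ^ 3)) = 2 := by decide
  have c3 : (1 * 3 ^ 1 * (1 - 3) ^ 0 : ZMod (2 ^ 3)) = 3 := by decide
  have c4 : (1 * 3 ^ 0 * (1 - 3) ^ 1 : ZMod (2 ^ 3)) = 6 := by decide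
  have d2 : (-1 * 3 ^ 1 * (1 - 3) ^ 1 : ZMod (2 ^ 3)) = 6 := by decide
  have d3 : (-1 * 3 ^ 1 * (1 - 3) ^ 0 : ZMod (2 ^ 3)) = 5 := by decide
  have d4 : (-1 * 3 ^ 0 * (1 - 3) ^ 1 : ZMod (2 ^ 3)) = 2 := by decide
  have d5 : (-1 * 3 ^ 0 * (1 - 3) ^ 0 : ZMod (2 ^ 3)) = 7 := by decide
  rcases he with rfl | rfl <;> interval_cases a <;> interval_cases b
  · exact ⟨rfl, rfl, rfl⟩
  · rw [map_one, c4] at hz; exact absurd hz k4
  · rw [map_one, c3] at hz; exact absurd hz k2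
  · rw [map_one, c2] at hz; exact absurd hz k5
  · rw [map_neg, map_one, d5] at hz; exact absurd hz k1
  · rw [map_neg, map_one, d4] at hz; exact absurd hz k5
  · rw [map_neg, map_one, d3] at hz; exact absurd hz k3
  · rw [map_neg, map_one, d2] at hz; exact absurd hz k4

/-! ### the ideal part -/

open UniqueFactorizationMonoid in
theorem exists_sq_ideal {R : Type} [CommRing R] [IsDedekindDomain R] (P1 P2 I : Ideal R)
    (h12 : P1 ≠ P2) (hI : I ≠ ⊥)
    (he : ∀ P : Ideal R, P ∈ normalizedFactors I → P ≠ P1 → P ≠ P2 →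
      Even (Multiset.count P (normalizedFactors I))) :
    ∃ (a b : ℕ) (J : Ideal R), a < 2 ∧ b < 2 ∧ J ≠ ⊥ ∧ I = P1 ^ a * P2 ^ b * J ^ 2 := by
  classical
  set M := normalizedFactors I with hM
  have h1 : I = ∏ P ∈ M.toFinset, P ^ (M.count P) := by
    rw [← Finset.prod_multiset_count, hM]
    exact (Ideal.prod_normalizedFactors_eq_self hI).symm
  have h2 : (∏ P ∈ M.toFinset, P ^ (M.count P)) =
      (∏ P ∈ M.toFinset, P ^ (M.count P % 2)) * (∏ P ∈ M.toFinset, P ^ (M.count P / 2)) ^ 2 := by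
    rw [← Finset.prod_pow, ← Finset.prod_mul_distrib]
    refine Finset.prod_congr rfl fun P _ => ?_
    rw [← pow_mul, ← pow_add]
    congr 1
    omega
  have h3 : (∏ P ∈ M.toFinset, P ^ (M.count P % 2)) =
      ∏ P ∈ ({P1, P2} : Finset (Ideal R)), P ^ (M.count P % 2) := by
    rw [Finset.prod_subset (s₁ := M.toFinset) (s₂ := M.toFinset ∪ {P1, P2}) Finset.subset_union_left,
      Finset.prod_subset (s₁ := {P1, P2}) (s₂ := M.toFinset ∪ {P1, P2}) Finset.subset_union_right]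
    · intro P hP hP'
      have h4 : P ∈ M := by
        rcases Finset.mem_union.mp hP with h5 | h5
        · exact Multiset.mem_toFinset.mp h5
        · exact absurd h5 hP'
      simp only [Finset.mem_insert, Finset.mem_singleton, not_or] at hP'
      have h5 := he P h4 hP'.1 hP'.2
      rw [Nat.even_iff.mp h5, pow_zero]
    · intro P hP hP'
      rw [Multiset.mem_toFinset] at hP'
      rw [Multiset.count_eq_zero_of_notMem hP', Nat.zero_mod, pow_zero]
  rw [Finset.prod_pair h12] at h3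
  refine ⟨M.count P1 % 2, M.count P2 % 2, ∏ P ∈ M.toFinset, P ^ (M.count P / 2),
    Nat.mod_lt _ two_pos, Nat.mod_lt _ two_pos, ?_, ?_⟩
  · intro h0
    apply hI
    rw [h1, h2, h0]
    simp
  · rw [← h3, ← h2]
    exact h1

/-! ### coordinates -/

section
variable {K : Type} [Field K] [NumberField K] {s : K}

theorem coord (hs : s ^ 2 = -7) {A B e f C D : ℚ}
    (h : (A : K) + B * s = ((e : K) + f * s) * ((C : K) + D * s) ^ 2) {t : ℚ_[2]}
    (ht : t ^ 2 = -7) :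
    (A : ℚ_[2]) + B * t = ((e : ℚ_[2]) + f * t) * ((C : ℚ_[2]) + D * t) ^ 2 := by
  have hs' : s ^ 2 = -((7 : ℕ) : K) := by rw [hs]; norm_num
  have h1 : ((A - (e * (C ^ 2 - 7 * D ^ 2) - 14 * f * C * D) : ℚ) : K) +
      ((B - (2 * e * C * D + f * (C ^ 2 - 7 * D ^ 2)) : ℚ) : K) * s = 0 := by
    push_cast
    linear_combination h + (D ^ 2 * e + 2 * C * D * f + f * D ^ 2 * s : K) * hs
  obtain ⟨h2, h3⟩ := Pool.Agent.Q16.BKC.ab_zero (q := 7) (by norm_num) hs' h1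
  have h4 : A = e * (C ^ 2 - 7 * D ^ 2) - 14 * f * C * D := by linarith
  have h5 : B = 2 * e * C * D + f * (C ^ 2 - 7 * D ^ 2) := by linarith
  rw [h4, h5]
  push_cast
  linear_combination (-(D ^ 2 * e + 2 * C * D * f + f * D ^ 2 * t) : ℚ_[2]) * ht

omit [NumberField K] in
theorem ne_zero_t [CharZero K] {C D : ℚ} (h : (C : K) + D * s ≠ 0) {t : ℚ_[2]} (ht : t ^ 2 = -7) :
    (C : ℚ_[2]) + D * t ≠ 0 := by
  intro h0
  have h1 : ((C ^ 2 + 7 * D ^ 2 : ℚ) : ℚ_[2]) = 0 := by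
    push_cast
    linear_combination (C - D * t : ℚ_[2]) * h0 + (D ^ 2 : ℚ_[2]) * ht
  have h2 : C ^ 2 + 7 * D ^ 2 = 0 := by exact_mod_cast h1
  have hC : C = 0 := by
    by_contra hc
    have : 0 < C ^ 2 := by positivity
    nlinarith [sq_nonneg D]
  have hD : D = 0 := by
    by_contra hc
    have : 0 < D ^ 2 := by positivity
    nlinarith [sq_nonneg C]
  apply h
  rw [hC, hD]
  simp

theorem not_sq {n : ℕ} (hn : n = 7 ∨ n = 21) : ¬ IsSquare n := by
  rintro ⟨r, hr⟩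
  rcases hn with rfl | rfl
  · have : r ≤ 2 := by nlinarith
    interval_cases r <;> omega
  · have : r ≤ 4 := by nlinarith
    interval_cases r <;> omega

/-- the units are `1` and `-1` -/
theorem unit_eq (hs : s ^ 2 = -7) (hd : Module.finrank ℚ K = 2) {u : 𝓞 K} (hu : IsUnit u) :
    (u : K) = 1 ∨ (u : K) = -1 := by
  have hs' : s ^ 2 = -((7 : ℕ) : K) := by rw [hs]; norm_num
  obtain ⟨σ, h1, h2⟩ := Pool.Agent.Q16.BKC.exists_conj (q := 7) (by norm_num) hs' hd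
  obtain ⟨a, b, hab⟩ := Pool.Agent.Q16.BKC.exists_ab (q := 7) (by norm_num) hs' hd (u : K)
  have hσ : σ (u : K) = (a : K) - b * s := by
    rw [hab]
    simp [h1]
    ring
  have hN : ((Algebra.norm ℤ u : ℤ) : ℚ) = a ^ 2 + 7 * b ^ 2 := by
    have e1 : (((Algebra.norm ℤ u : ℤ) : ℚ) : K) = ((a ^ 2 + 7 * b ^ 2 : ℚ) : K) := by
      have e2 : ((Algebra.norm ℤ u : ℤ) : ℚ) = Algebra.norm ℚ (u : K) := Algebra.coe_norm_int u
      rw [e2, h2, hσ, hab]
      push_cast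
      linear_combination (-(b : K) ^ 2) * hs
    exact_mod_cast e1
  have hN1 : Algebra.norm ℤ u = 1 := by
    have e1 : IsUnit (Algebra.norm ℤ u) := hu.map (Algebra.norm ℤ)
    rcases Int.isUnit_iff.mp e1 with e2 | e2
    · exact e2
    · exfalso
      rw [e2] at hN
      push_cast at hN
      nlinarith [sq_nonneg a, sq_nonneg b]
  rw [hN1] at hN
  push_cast at hN
  have hint : IsIntegral ℤ ((2 * a : ℚ)) := by
    have h4 : IsIntegral ℤ (algebraMap ℚ K (2 * a)) := by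
      have e5 : algebraMap ℚ K (2 * a) = (u : K) + σ (u : K) := by
        rw [hσ, hab]
        simp
        ring
      rw [e5]
      exact (RingOfIntegers.isIntegral_coe _).add
        ((RingOfIntegers.isIntegral_coe u).map (σ.toAlgHom.restrictScalars ℤ))
    exact (isIntegral_algebraMap_iff (algebraMap ℚ K).injective).mp h4
  obtain ⟨T, hT⟩ := IsIntegrallyClosed.isIntegral_iff.mp hint
  have hT' : (T : ℚ) = 2 * a := hT
  have h5 : (T : ℚ) ^ 2 + 28 * b ^ 2 = 4 := by rw [hT']; linarith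
  have h6 : T ^ 2 ≤ 4 := by
    have : (T : ℚ) ^ 2 ≤ 4 := by nlinarith [sq_nonneg b]
    exact_mod_cast this
  have h7 : T ≤ 2 := by nlinarith
  have h8 : -2 ≤ T := by nlinarith
  have hb : T ^ 2 = 4 → b = 0 := by
    intro h9
    have : (T : ℚ) ^ 2 = 4 := by exact_mod_cast h9
    rw [this] at h5
    have h10 : b ^ 2 = 0 := by linarith
    exact pow_eq_zero_iff two_ne_zero |>.mp h10
  interval_cases T
  · right
    have hb0 := hb (by norm_num)
    have ha : a = -1 := by push_cast at hT'; linarith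
    rw [hab, hb0, ha]; simp
  · exfalso
    have h9 : IsSquare ((21 : ℕ) : ℚ) := ⟨14 * b, by push_cast at h5 ⊢; linarith⟩
    rw [Rat.isSquare_natCast_iff] at h9
    exact not_sq (by norm_num) h9
  · exfalso
    have h9 : IsSquare ((7 : ℕ) : ℚ) := ⟨7 * b, by push_cast at h5 ⊢; linarith⟩
    rw [Rat.isSquare_natCast_iff] at h9
    exact not_sq (by norm_num) h9
  · exfalso
    have h9 : IsSquare ((21 : ℕ) : ℚ) := ⟨14 * b, by push_cast at h5 ⊢; linarith⟩
    rw [Rat.isSquare_natCast_iff] at h9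
    exact not_sq (by norm_num) h9
  · left
    have hb0 := hb (by norm_num)
    have ha : a = 1 := by push_cast at hT'; linarith
    rw [hab, hb0, ha]; simp

theorem even_count {x : K} {y w : 𝓞 K} (hy : y ≠ 0) (hw : w ≠ 0)
    (hx : x = (y : K) / (w : K) ^ 2) (v : HeightOneSpectrum (𝓞 K)) {a : K} (ha : a ≠ 0)
    (h : v.valuation K (x * a ^ 2) = 1) :
    Even (Multiset.count v.asIdeal
      (UniqueFactorizationMonoid.normalizedFactors (Ideal.span {y}))) := by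
  have hwK : (w : K) ≠ 0 := by exact_mod_cast hw
  have e1 : x * a ^ 2 = (y : K) * (a / w) ^ 2 := by
    rw [hx]; field_simp
  rw [e1, map_mul, map_pow] at h
  have e2 : v.valuation K (y : K) = v.intValuation y := v.valuation_of_algebraMap y
  have hI : (Ideal.span {y} : Ideal (𝓞 K)) ≠ 0 := by
    rw [Ideal.zero_eq_bot, Ne, Ideal.span_singleton_eq_bot]; exact hy
  rw [e2, v.intValuation_if_neg hy,
    Ideal.count_associates_factors_eq hI v.isPrime v.ne_bot] at h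
  have hc : v.valuation K (a / w) ≠ 0 := by
    rw [Ne, Valuation.zero_iff]
    exact div_ne_zero ha hwK
  have e3 := congrArg WithZero.log h
  rw [WithZero.log_mul (WithZero.exp_ne_zero) (pow_ne_zero 2 hc), WithZero.log_exp,
    WithZero.log_pow, WithZero.log_one] at e3
  rw [← Int.even_coe_nat]
  refine ⟨WithZero.log (v.valuation K (a / w)), ?_⟩
  rw [nsmul_eq_mul] at e3
  push_cast at e3
  linarith

end

theorem t_SQ : Pool.Agent.Q274.BD.S_SQ := by
  intro K _ _ s x hs hd hx hv hloc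
  have hs' : s ^ 2 = -((7 : ℕ) : K) := by rw [hs]; norm_num
  -- the generators
  have hWi : IsIntegral ℤ ((1 + s) / 2) := by
    refine ⟨Polynomial.X ^ 2 - Polynomial.X + Polynomial.C 2, ?_, ?_⟩
    · monicity!
    · simp only [Polynomial.eval₂_add, Polynomial.eval₂_sub, Polynomial.eval₂_pow,
        Polynomial.eval₂_X, Polynomial.eval₂_C]
      simp only [algebraMap_int_eq, eq_intCast, Int.cast_ofNat]
      linear_combination (1 / 4 : K) * hs
  let W : 𝓞 K := ⟨(1 + s) / 2, hWi⟩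
  have hWK : algebraMap (𝓞 K) K W = (1 + s) / 2 := rfl
  have hWW : W * (1 - W) = 2 := by
    apply RingOfIntegers.ext
    change algebraMap (𝓞 K) K (W * (1 - W)) = algebraMap (𝓞 K) K 2
    rw [map_mul, map_sub, map_one, hWK, map_ofNat]
    linear_combination (-(1 / 4) : K) * hs
  have hW0 : W ≠ 0 := by
    intro h
    rw [h, zero_mul] at hWW
    exact two_ne_zero hWW.symm
  have hW1 : 1 - W ≠ 0 := by
    intro h
    rw [h, mul_zero] at hWW
    exact two_ne_zero hWW.symm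
  obtain ⟨σ, hσs, hσn⟩ := Pool.Agent.Q16.BKC.exists_conj (q := 7) (by norm_num) hs' hd
  have hN : ∀ Z : 𝓞 K, (algebraMap (𝓞 K) K Z = (1 + s) / 2 ∨ algebraMap (𝓞 K) K Z = (1 - s) / 2) →
      (Ideal.span {Z} : Ideal (𝓞 K)).IsPrime := by
    intro Z hZ
    apply Ideal.isPrime_of_irreducible_absNorm
    rw [Ideal.absNorm_span_singleton]
    have e1 : (((Algebra.norm ℤ Z : ℤ) : ℚ) : K) = ((2 : ℚ) : K) := by
      have e2 : ((Algebra.norm ℤ Z : ℤ) : ℚ) = Algebra.norm ℚ (Z : K) := Algebra.coe_norm_int Z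
      rw [e2, hσn]
      change algebraMap (𝓞 K) K Z * σ (algebraMap (𝓞 K) K Z) = _
      rcases hZ with h | h
      · rw [h, map_div₀, map_add, map_one, hσs, map_ofNat]
        push_cast
        linear_combination (-(1 / 4) : K) * hs
      · rw [h, map_div₀, map_sub, map_one, hσs, map_ofNat]
        push_cast
        linear_combination (-(1 / 4) : K) * hs
    have e3 : Algebra.norm ℤ Z = 2 := by exact_mod_cast e1
    rw [e3]
    exact Nat.prime_two
  have hP1 : (Ideal.span {W} : Ideal (𝓞 K)).IsPrime := hN W (Or.inl hWK)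
  have hP2 : (Ideal.span {1 - W} : Ideal (𝓞 K)).IsPrime := by
    apply hN (1 - W)
    right
    rw [map_sub, map_one, hWK]; ring
  have h12 : (Ideal.span {W} : Ideal (𝓞 K)) ≠ Ideal.span {1 - W} := by
    intro h
    apply hP1.ne_top
    rw [Ideal.eq_top_iff_one]
    have e1 : W ∈ (Ideal.span {W} : Ideal (𝓞 K)) := Ideal.mem_span_singleton_self _
    have e2 : 1 - W ∈ (Ideal.span {W} : Ideal (𝓞 K)) := by
      rw [h]; exact Ideal.mem_span_singleton_self _
    have := add_mem e1 e2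
    simpa using this
  have habove : ∀ P : Ideal (𝓞 K), P.IsPrime → (2 : 𝓞 K) ∈ P →
      P = Ideal.span {W} ∨ P = Ideal.span {1 - W} := by
    intro P hP h2
    rw [← hWW] at h2
    have hne : ∀ Z : 𝓞 K, Z ≠ 0 → (Ideal.span {Z} : Ideal (𝓞 K)).IsPrime → Z ∈ P →
        P = Ideal.span {Z} := by
      intro Z hZ0 hZ hZP
      have hmax : (Ideal.span {Z} : Ideal (𝓞 K)).IsMaximal :=
        hZ.isMaximal (by rw [Ne, Ideal.span_singleton_eq_bot]; exact hZ0)
      exact (hmax.eq_of_le hP.ne_top ((Ideal.span_singleton_le_iff_mem P).mpr hZP)).symm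
    rcases hP.mem_or_mem h2 with h | h
    · exact Or.inl (hne W hW0 hP1 h)
    · exact Or.inr (hne (1 - W) hW1 hP2 h)
  -- a representative in the integers
  obtain ⟨u0, w0, hw0, hxuw⟩ := IsFractionRing.div_surjective (A := 𝓞 K) x
  have hw0' : w0 ≠ 0 := nonZeroDivisors.ne_zero hw0
  have hw0K : algebraMap (𝓞 K) K w0 ≠ 0 := by
    rw [Ne, FaithfulSMul.algebraMap_eq_zero_iff]; exact hw0'
  have hu0 : u0 ≠ 0 := by
    rintro rfl
    apply hx
    rw [← hxuw, map_zero, zero_div]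
  set y : 𝓞 K := u0 * w0 with hydef
  have hy0 : y ≠ 0 := mul_ne_zero hu0 hw0'
  have hyK : algebraMap (𝓞 K) K y ≠ 0 := by
    rw [Ne, FaithfulSMul.algebraMap_eq_zero_iff]; exact hy0
  have hxy : x = algebraMap (𝓞 K) K y / (algebraMap (𝓞 K) K w0) ^ 2 := by
    rw [← hxuw, hydef, map_mul]
    field_simp
  have hI0 : (Ideal.span {y} : Ideal (𝓞 K)) ≠ ⊥ := by
    rw [Ne, Ideal.span_singleton_eq_bot]; exact hy0
  -- the square root of the ideal
  obtain ⟨a, b, J, ha, hb, hJ0, hJ⟩ := exists_sq_ideal (Ideal.span {W}) (Ideal.span {1 - W})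
    (Ideal.span {y}) h12 hI0 (by
      intro P hP hne1 hne2
      have hpr : Prime P := UniqueFactorizationMonoid.prime_of_normalized_factor P hP
      have hPp : P.IsPrime := Ideal.isPrime_of_prime hpr
      have hPb : P ≠ ⊥ := hpr.ne_zero
      have h2 : (2 : 𝓞 K) ∉ P := by
        intro h2
        rcases habove P hPp h2 with h | h
        · exact hne1 h
        · exact hne2 h
      obtain ⟨c, hc, hcv⟩ := hv ⟨P, hPp, hPb⟩ h2
      exact even_count hy0 hw0' hxy ⟨P, hPp, hPb⟩ hc hcv)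
  obtain ⟨n, γ, hn, hγ⟩ := Pool.Agent.Q16.BKC.t_CLS K 7 s (by norm_num) (by norm_num) hs' hd J hJ0
  obtain ⟨m, hm⟩ := hn
  set G : 𝓞 K := W ^ a * (1 - W) ^ b with hG
  have hspan : (Ideal.span {y ^ n} : Ideal (𝓞 K)) = Ideal.span {G ^ n * γ ^ 2} := by
    rw [← Ideal.span_singleton_pow, hJ, mul_pow, ← pow_mul, mul_comm 2 n, pow_mul, hγ, hG,
      ← Ideal.span_singleton_mul_span_singleton, Ideal.span_singleton_pow,
      Ideal.span_singleton_pow, ← Ideal.span_singleton_pow (W ^ a * (1 - W) ^ b),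
      ← Ideal.span_singleton_mul_span_singleton, Ideal.span_singleton_pow]
  obtain ⟨e, he⟩ := Ideal.span_singleton_eq_span_singleton.mp hspan
  have heu := unit_eq hs hd (e⁻¹).isUnit
  obtain ⟨z, hz⟩ : ∃ z : K, x = algebraMap (𝓞 K) K ((e⁻¹ : (𝓞 K)ˣ) : 𝓞 K) *
      algebraMap (𝓞 K) K G * z ^ 2 := by
    have e1 : y ^ n = ((e⁻¹ : (𝓞 K)ˣ) : 𝓞 K) * (G ^ n * γ ^ 2) := by
      rw [← he, mul_comm (y ^ n), ← mul_assoc, Units.inv_mul, one_mul]
    have e2 := congrArg (algebraMap (𝓞 K) K) e1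
    simp only [map_mul, map_pow] at e2
    refine ⟨(algebraMap (𝓞 K) K G) ^ m * algebraMap (𝓞 K) K γ /
      ((algebraMap (𝓞 K) K y) ^ m * algebraMap (𝓞 K) K w0), ?_⟩
    rw [hxy, hm] at *
    have e3 : (algebraMap (𝓞 K) K y) * ((algebraMap (𝓞 K) K y) ^ m) ^ 2 =
        algebraMap (𝓞 K) K ((e⁻¹ : (𝓞 K)ˣ) : 𝓞 K) * algebraMap (𝓞 K) K G *
          ((algebraMap (𝓞 K) K G) ^ m * algebraMap (𝓞 K) K γ) ^ 2 := by
      have e4 : (algebraMap (𝓞 K) K y) ^ (2 * m + 1) =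
        (algebraMap (𝓞 K) K y) * ((algebraMap (𝓞 K) K y) ^ m) ^ 2 := by ring
      have e5 : (algebraMap (𝓞 K) K G) ^ (2 * m + 1) =
        (algebraMap (𝓞 K) K G) * ((algebraMap (𝓞 K) K G) ^ m) ^ 2 := by ring
      rw [← e4, e2, e5]; ring
    have hym : (algebraMap (𝓞 K) K y) ^ m ≠ 0 := pow_ne_zero _ hyK
    rw [div_pow, mul_pow ((algebraMap (𝓞 K) K y) ^ m), ← mul_div_assoc, ← e3]
    field_simp
  -- the completion
  obtain ⟨w, hw, hw1⟩ := exists_w
  set t : ℚ_[2] := 2 * (w : ℚ_[2]) - 1 with ht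
  have hwQ : (w : ℚ_[2]) ^ 2 - w + 2 = 0 := by
    have := congrArg (fun v : ℤ_[2] => (v : ℚ_[2])) hw
    push_cast at this
    exact this
  have ht7 : t ^ 2 = -7 := by
    rw [ht]; linear_combination 4 * hwQ
  have ht4 : ‖t - 1‖ ≤ 1 / 4 := by
    have e1 : t - 1 = 2 * ((w - 1 : ℤ_[2]) : ℚ_[2]) := by
      rw [ht]; push_cast; ring
    rw [e1, norm_mul]
    have e2 : ‖(2 : ℚ_[2])‖ = 2⁻¹ := by
      have : ‖((2 : ℕ) : ℚ_[2])‖ = ((2 : ℕ) : ℝ)⁻¹ := Padic.norm_p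
      simpa using this
    have e3 : ‖((w - 1 : ℤ_[2]) : ℚ_[2])‖ ≤ 1 / 2 := by
      have h5 : ∃ c, w - 1 = 2 * c := by
        have := (PadicInt.norm_lt_one_iff_dvd (w - 1)).mp hw1
        simpa [dvd_def] using this
      obtain ⟨c, hc⟩ := h5
      rw [hc, PadicInt.coe_mul, norm_mul]
      have h6 : ‖(c : ℚ_[2])‖ ≤ 1 := c.2
      have h7 : ‖((2 : ℤ_[2]) : ℚ_[2])‖ = 2⁻¹ := by
        rw [← e2]; norm_cast
      rw [h7]
      linarith
    rw [e2]
    linarith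
  obtain ⟨A, B, hAB⟩ := Pool.Agent.Q16.BKC.exists_ab (q := 7) (by norm_num) hs' hd x
  obtain ⟨C, D, hCD⟩ := Pool.Agent.Q16.BKC.exists_ab (q := 7) (by norm_num) hs' hd z
  have hz0 : z ≠ 0 := by
    rintro rfl
    apply hx
    rw [hz]; ring
  have hz0' := hz0
  rw [hCD] at hz0'
  have hsqAB := hloc A B t hAB ht7 ht4
  obtain ⟨ε, hε, hεK⟩ : ∃ ε : ℤ, (ε = 1 ∨ ε = -1) ∧
      algebraMap (𝓞 K) K ((e⁻¹ : (𝓞 K)ˣ) : 𝓞 K) = (ε : K) := by
    rcases heu with h | h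
    · exact ⟨1, Or.inl rfl, by rw [Int.cast_one]; exact h⟩
    · exact ⟨-1, Or.inr rfl, by rw [Int.cast_neg, Int.cast_one]; exact h⟩
  have hGK : algebraMap (𝓞 K) K G = ((1 + s) / 2) ^ a * (1 - (1 + s) / 2) ^ b := by
    rw [hG, map_mul, map_pow, map_pow, map_sub, map_one, hWK]
  obtain ⟨e0, f0, h1, h2⟩ : ∃ e0 f0 : ℚ,
      (ε : K) * (((1 + s) / 2) ^ a * (1 - (1 + s) / 2) ^ b) = e0 + f0 * s ∧
      (ε : ℚ_[2]) * ((w : ℚ_[2]) ^ a * (1 - (w : ℚ_[2])) ^ b) = e0 + f0 * t := by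
    have hwt : (w : ℚ_[2]) = (1 + t) / 2 := by rw [ht]; ring
    rw [hwt]
    interval_cases a <;> interval_cases b
    · refine ⟨ε, 0, ?_, ?_⟩ <;> push_cast <;> ring
    · refine ⟨ε / 2, -ε / 2, ?_, ?_⟩ <;> push_cast <;> ring
    · refine ⟨ε / 2, ε / 2, ?_, ?_⟩ <;> push_cast <;> ring
    · refine ⟨2 * ε, 0, ?_, ?_⟩
      · push_cast
        linear_combination (-(ε / 4) : K) * hs
      · push_cast
        linear_combination (-(ε / 4) : ℚ_[2]) * ht7
  have h3 : (A : K) + B * s = ((e0 : K) + f0 * s) * ((C : K) + D * s) ^ 2 := by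
    rw [← hAB, ← hCD, ← h1, ← hGK, ← hεK]
    exact hz
  have h4 := coord hs h3 ht7
  have hne := ne_zero_t hz0' ht7
  have h5 : IsSquare ((e0 : ℚ_[2]) + f0 * t) := by
    obtain ⟨r, hr⟩ := hsqAB
    rw [h4] at hr
    refine ⟨r / ((C : ℚ_[2]) + D * t), ?_⟩
    rw [div_mul_div_comm, eq_div_iff (mul_ne_zero hne hne)]
    linear_combination hr
  rw [← h2] at h5
  have h6 : IsSquare ((((ε : ℤ) : ℤ_[2]) * w ^ a * (1 - w) ^ b : ℤ_[2]) : ℚ_[2]) := by
    push_cast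
    rw [mul_assoc]
    exact h5
  obtain ⟨k1, k2, k3⟩ := two_adic hw hw1 (by
    rcases hε with h | h
    · left; rw [h]; simp
    · right; rw [h]; simp) ha hb h6
  have hε1 : ε = 1 := by exact_mod_cast k1
  refine ⟨z, ?_⟩
  rw [hz, hεK, hGK, hε1, k2, k3]
  push_cast
  ring

end Pool.Agent.Q208.BD
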